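import Pool.Agent.P.MP_98c3cf_nt.Leaf

/-! Counting the covered integers. -/

namespace Pool.Agent.P.MP_98c3cf_nt

open Finset

/-- Every skipped integer is blocked by earlier terms. -/
structure Greedy (a : ℕ → ℕ) : Prop where
  zero : a 0 = 1
  mono : StrictMono a
  skip : ∀ n m, a n < m → m < a (n + 1) →
    ∃ i j k, i ≤ n ∧ j ≤ n ∧ k ≤ n ∧ (m + a i = a j + a k ∨ m + m = a j + a k)

/-- Indices of the terms up to `y`. -/
def idx (a : ℕ → ℕ) (y : ℕ) : Finset ℕ := (range (y + 1)).filter fun n => a n ≤ y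

variable {a : ℕ → ℕ}

theorem mem_idx (h : Greedy a) {y n : ℕ} : n ∈ idx a y ↔ a n ≤ y := by
  have := h.mono.le_apply (x := n)
  simp only [idx, mem_filter, mem_range]
  omega

theorem idx_mono (h : Greedy a) {x y : ℕ} (hxy : x ≤ y) : idx a x ⊆ idx a y :=
  fun _ hn => (mem_idx h).2 (((mem_idx h).1 hn).trans hxy)

theorem Greedy.pos (h : Greedy a) (n : ℕ) : 0 < a n := by
  have := h.mono.monotone (Nat.zero_le n)
  have := h.zero
  omega

theorem Greedy.cover (h : Greedy a) {x : ℕ} (hx : 0 < x) :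
    (∃ n, a n = x) ∨ ∃ i j k, a j < x ∧ a k < x ∧ x + a i = a j + a k := by
  classical
  have ex : ∃ n, x ≤ a n := ⟨x, h.mono.le_apply⟩
  have h1 := Nat.find_spec ex
  rcases hn : Nat.find ex with _ | n
  · rw [hn, h.zero] at h1
    exact Or.inl ⟨0, by rw [h.zero]; omega⟩
  · have h2 : ¬ x ≤ a n := Nat.find_min ex (by omega)
    rw [hn] at h1
    rcases h1.eq_or_lt with e | e
    · exact Or.inl ⟨_, e.symm⟩
    · obtain ⟨i, j, k, -, hj, hk, r⟩ := h.skip n x (by omega) e
      have := h.mono.monotone hj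
      have := h.mono.monotone hk
      exact Or.inr ⟨i, j, k, by omega, by omega, by omega⟩

theorem tt_lt : ∀ x ≤ 18, ∀ y ≤ 18, tt x < tt y → x < y := by decide

theorem tt_le : ∀ y ≤ 18, ∀ x ≤ y, tt x ≤ tt y := by decide

/-- The cell of a term. -/
def IsCell (a : ℕ → ℕ) (Y : ℕ) (c : ℕ → ℕ) : Prop :=
  ∀ p ∈ idx a (40 * Y), c p < 18 ∧ tt (c p) * Y < a p ∧ a p ≤ tt (c p + 1) * Y

theorem exists_cell (h : Greedy a) (Y : ℕ) : ∃ c, IsCell a Y c := by
  classical
  have : ∀ p, ∃ i, p ∈ idx a (40 * Y) → i < 18 ∧ tt i * Y < a p ∧ a p ≤ tt (i + 1) * Y := by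
    intro p
    by_cases hp : p ∈ idx a (40 * Y)
    · have ex : ∃ i, a p ≤ tt (i + 1) * Y := ⟨17, (mem_idx h).1 hp⟩
      refine ⟨Nat.find ex, fun _ => ⟨?_, ?_, Nat.find_spec ex⟩⟩
      · exact Nat.lt_succ_of_le (Nat.find_min' ex ((mem_idx h).1 hp))
      · rcases hn : Nat.find ex with _ | n
        · simpa [tt] using h.pos p
        · exact not_le.1 (Nat.find_min ex (by omega))
    · exact ⟨0, fun hh => absurd hh hp⟩
  choose c hc using this
  exact ⟨c, hc⟩

variable {Y : ℕ} {c : ℕ → ℕ}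

theorem IsCell.le (hc : IsCell a Y c) {p b : ℕ} (hp : p ∈ idx a (40 * Y)) (hb : b < 18)
    (h : a p ≤ tt (b + 1) * Y) : c p ≤ b := by
  obtain ⟨h1, h2, -⟩ := hc p hp
  exact Nat.lt_succ_iff.1 (tt_lt _ h1.le _ hb (Nat.lt_of_mul_lt_mul_right (h2.trans_le h)))

theorem IsCell.E (hc : IsCell a Y c) {i j k x u v : ℕ} (hi : i ∈ idx a (40 * Y))
    (hj : j ∈ idx a (40 * Y)) (hk : k ∈ idx a (40 * Y)) (h1 : a j < x) (h2 : a k < x)
    (h3 : x + a i = a j + a k) (hu : u * Y < x) (hv : x ≤ v * Y) :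
    E u v (c i) (c j) (c k) = true := by
  obtain ⟨i1, i2, i3⟩ := hc i hi
  obtain ⟨j1, j2, j3⟩ := hc j hj
  obtain ⟨k1, k2, k3⟩ := hc k hk
  have a1 : c i ≤ c j := hc.le hi j1 (by omega)
  have a2 : c i ≤ c k := hc.le hi k1 (by omega)
  have e1 : min (c i) (min (c j) (c k)) = c i := by omega
  unfold MP_98c3cf_nt.E
  rw [e1]
  simp only [Bool.and_eq_true, Nat.blt_eq]
  refine ⟨⟨?_, ?_⟩, ?_⟩
  · refine Nat.lt_of_mul_lt_mul_right (a := Y) ?_
    rcases le_total (c j) (c k) with b | b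
    · rw [show max (c i) (max (c j) (c k)) = c k by omega]; omega
    · rw [show max (c i) (max (c j) (c k)) = c j by omega]; omega
  · refine Nat.lt_of_mul_lt_mul_right (a := Y) ?_
    simp only [add_mul]; omega
  · refine Nat.lt_of_mul_lt_mul_right (a := Y) ?_
    simp only [add_mul]; omega

theorem count (h : Greedy a) (hc : IsCell a Y c) {u v : ℕ} (huv : u < v) (hv : v ≤ 40) :
    6 * (((v : ℤ) - u) * Y - (idx a (40 * Y)).card - ((idx a (40 * Y)).card : ℤ) ^ 2) ≤
      S3 (idx a (40 * Y)) c fun i j k => bif E u v i j k then 1 else 0 := by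
  classical
  set I := idx a (40 * Y) with hI
  set G : ℕ × ℕ × ℕ → ℕ := fun z =>
    a z.1 + a z.2.1 + a z.2.2 - 2 * min (a z.1) (min (a z.2.1) (a z.2.2)) with hG
  set Wd := (Ioc (u * Y) (v * Y) \ I.image a) \ (I ×ˢ I).image fun z => 2 * a z.1 - a z.2
    with hW
  set s := (I ×ˢ I ×ˢ I).filter fun z => E u v (c z.1) (c z.2.1) (c z.2.2) = true ∧ G z ∈ Wd
    with hs
  have hvY : v * Y ≤ 40 * Y := Nat.mul_le_mul_right _ hv
  have key : 6 * Wd.card ≤ s.card := by
    refine mul_card_image_le_card_of_maps_to (f := G) (fun z hz => (mem_filter.1 hz).2.2) 6 ?_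
    intro x hx
    have hx' := hx
    simp only [hW, mem_sdiff, mem_Ioc, mem_image, not_exists, not_and] at hx'
    obtain ⟨⟨⟨x1, x2⟩, x3⟩, x4⟩ := hx'
    rcases h.cover (show 0 < x by omega) with ⟨n, rfl⟩ | ⟨i, j, k, h1, h2, h3⟩
    · exact absurd rfl (x3 n ((mem_idx h).2 (by omega)))
    have hi : i ∈ I := (mem_idx h).2 (by omega)
    have hj : j ∈ I := (mem_idx h).2 (by omega)
    have hk : k ∈ I := (mem_idx h).2 (by omega)
    have n1 : i ≠ j := by rintro rfl; omega
    have n2 : i ≠ k := by rintro rfl; omega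
    have n3 : j ≠ k := by
      rintro rfl
      exact x4 (j, i) (mem_product.2 ⟨hj, hi⟩) (by simp only; omega)
    have e := hc.E hi hj hk h1 h2 h3 x1 x2
    have e2 := e; rw [E_23] at e2
    have e3 := e; rw [E_12] at e3
    have e4 := e3; rw [E_23] at e4
    have e5 := e2; rw [E_12] at e5
    have e6 := e5; rw [E_23] at e6
    have m : ∀ z : ℕ × ℕ × ℕ, z.1 ∈ I → z.2.1 ∈ I → z.2.2 ∈ I →
        E u v (c z.1) (c z.2.1) (c z.2.2) = true → G z = x → z ∈ s.filter (G · = x) :=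
      fun z a1 a2 a3 a4 a5 => mem_filter.2 ⟨mem_filter.2
        ⟨mem_product.2 ⟨a1, mem_product.2 ⟨a2, a3⟩⟩, a4, a5 ▸ hx⟩, a5⟩
    have sub : ({(i, j, k), (i, k, j), (j, i, k), (j, k, i), (k, i, j), (k, j, i)} :
        Finset (ℕ × ℕ × ℕ)) ⊆ s.filter (G · = x) := by
      intro z hz
      simp only [mem_insert, mem_singleton] at hz
      rcases hz with rfl | rfl | rfl | rfl | rfl | rfl <;>
        refine m _ (by assumption) (by assumption) (by assumption) (by assumption) ?_ <;>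
        simp only [hG] <;> omega
    refine le_trans (le_of_eq ?_) (card_le_card sub)
    simp [n1, n2, n3, n1.symm, n2.symm, n3.symm]
  have c1 : (v - u) * Y ≤ Wd.card + I.card + I.card ^ 2 := by
    have a1 := le_card_sdiff ((I ×ˢ I).image fun z => 2 * a z.1 - a z.2)
      (Ioc (u * Y) (v * Y) \ I.image a)
    have a2 := le_card_sdiff (I.image a) (Ioc (u * Y) (v * Y))
    have a3 : (I.image a).card ≤ I.card := card_image_le
    have a4 : ((I ×ˢ I).image fun z => 2 * a z.1 - a z.2).card ≤ I.card ^ 2 :=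
      card_image_le.trans (by rw [card_product, sq])
    rw [Nat.card_Ioc, ← Nat.sub_mul] at a2
    rw [← hW] at a1
    omega
  have c2 : (s.card : ℤ) ≤ S3 I c fun i j k => bif E u v i j k then 1 else 0 := by
    rw [hs, card_filter]
    push_cast
    rw [sum_product]
    refine sum_le_sum fun p _ => ?_
    rw [sum_product]
    refine sum_le_sum fun q _ => sum_le_sum fun r _ => ?_
    dsimp only
    split_ifs with hh
    · rw [hh.1]; rfl
    · cases E u v (c p) (c q) (c r) <;> simp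
  zify [huv.le] at c1 key
  linarith

end Pool.Agent.P.MP_98c3cf_nt
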