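import Mathlib

/-! Certificates for cubic inequalities between cell counts. -/

namespace Pool.Agent.P.MP_98c3cf_nt

open Finset

/-- A step function on cells: value `p` on `[a,b]`, value `q` elsewhere. -/
abbrev Fm := ℕ × ℕ × ℤ × ℤ

def ev (F : Fm) (i : ℕ) : ℤ := bif (Nat.ble F.1 i && Nat.ble i F.2.1) then F.2.2.1 else F.2.2.2

/-- Cell boundaries. -/
def tt (i : ℕ) : ℕ := [0, 1, 2, 4, 6, 8, 10, 12, 14, 16, 18, 20, 21, 23, 25, 27, 30, 33, 40].getD i 40

/-- The cells `i, j, k` can produce a value in the window `(u, v]`. -/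
def E (u v i j k : ℕ) : Bool :=
  Nat.blt (tt (max i (max j k))) v &&
  Nat.blt (tt i + tt j + tt k) (v + tt (min i (min j k)) + tt (min i (min j k) + 1)) &&
  Nat.blt (u + tt (min i (min j k)) + tt (min i (min j k) + 1))
    (tt (i + 1) + tt (j + 1) + tt (k + 1))

theorem E_12 (u v i j k : ℕ) : E u v i j k = E u v j i k := by
  unfold E
  rw [max_left_comm i, min_left_comm i, add_comm (tt i) (tt j), add_comm (tt (i + 1))]

theorem E_23 (u v i j k : ℕ) : E u v i j k = E u v i k j := by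
  unfold E
  rw [max_comm j, min_comm j, add_right_comm (tt i), add_right_comm (tt (i + 1))]

def Q : List (ℤ × Fm × Fm) → ℕ → ℕ → ℤ
  | [], _, _ => 0
  | s :: l, x, y => s.1 * (ev s.2.1 x * ev s.2.2 y + ev s.2.1 y * ev s.2.2 x) + Q l x y

def sh (z w : ℤ) : ℤ := if z = 0 then 0 else z * w

theorem sh_eq (z w : ℤ) : sh z w = z * w := by
  unfold sh; split_ifs with h <;> simp [h]

def R : List (Fm × List (ℤ × Fm × Fm)) → ℕ → ℕ → ℕ → ℤ
  | [], _, _, _ => 0
  | g :: T, i, j, k =>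
    sh (ev g.1 i) (Q g.2 j k) + sh (ev g.1 j) (Q g.2 i k) + sh (ev g.1 k) (Q g.2 i j) + R T i j k

def Ws : List (ℕ × ℕ × ℕ) → ℕ → ℕ → ℕ → ℤ
  | [], _, _, _ => 0
  | w :: W, i, j, k => (bif E w.2.1 w.2.2 i j k then (w.1 : ℤ) else 0) + Ws W i j k

def Wl : List (ℕ × ℕ × ℕ) → ℤ
  | [] => 0
  | w :: W => w.1 * ((w.2.2 : ℤ) - w.2.1) + Wl W

theorem Q_comm (l : List (ℤ × Fm × Fm)) (x y : ℕ) : Q l x y = Q l y x := by
  induction l with
  | nil => rfl
  | cons s l ih => simp only [Q, ih]; ring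

theorem R_12 (T : List (Fm × List (ℤ × Fm × Fm))) (i j k : ℕ) : R T i j k = R T j i k := by
  induction T with
  | nil => rfl
  | cons g T ih => simp only [R, ih, Q_comm g.2 i j]; ring

theorem R_23 (T : List (Fm × List (ℤ × Fm × Fm))) (i j k : ℕ) : R T i j k = R T i k j := by
  induction T with
  | nil => rfl
  | cons g T ih => simp only [R, ih, Q_comm g.2 j k]; ring

theorem Ws_12 (W : List (ℕ × ℕ × ℕ)) (i j k : ℕ) : Ws W i j k = Ws W j i k := by
  induction W with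
  | nil => rfl
  | cons g T ih => simp only [Ws, ih, E_12 _ _ i j k]

theorem Ws_23 (W : List (ℕ × ℕ × ℕ)) (i j k : ℕ) : Ws W i j k = Ws W i k j := by
  induction W with
  | nil => rfl
  | cons g T ih => simp only [Ws, ih, E_23 _ _ i j k]

def cells : List ℕ := [0, 1, 2, 3, 4, 5, 6, 7, 8, 9, 10, 11, 12, 13, 14, 15, 16, 17]

def okF (L : List Fm) (F : Fm) : Bool :=
  (decide (0 ≤ F.2.2.1) && decide (0 ≤ F.2.2.2)) || L.any fun G => decide (G = F)

def rows (W : List (ℕ × ℕ × ℕ)) (T : List (Fm × List (ℤ × Fm × Fm))) (M : ℤ) (i : ℕ) : Bool :=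
  cells.all fun j => cells.all fun k =>
    bif (Nat.ble i j && Nat.ble j k) then decide (Ws W i j k + R T i j k ≤ M) else true

def side (L : List Fm) (W : List (ℕ × ℕ × ℕ)) (T : List (Fm × List (ℤ × Fm × Fm))) (M : ℤ) :
    Bool :=
  (T.all fun g => okF L g.1 && g.2.all fun s => decide (0 ≤ s.1) && okF L s.2.1 && okF L s.2.2) &&
  (W.all fun w => Nat.blt w.2.1 w.2.2 && Nat.ble w.2.2 40) && decide (400000 * M < 9898 * Wl W)

theorem mem_cells {i : ℕ} (h : i < 18) : i ∈ cells := by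
  interval_cases i <;> simp [cells]

theorem rows_all {W : List (ℕ × ℕ × ℕ)} {T : List (Fm × List (ℤ × Fm × Fm))} {M : ℤ}
    (h : ∀ i ∈ cells, rows W T M i = true) {i j k : ℕ} (hi : i < 18) (hj : j < 18) (hk : k < 18) :
    Ws W i j k + R T i j k ≤ M := by
  have s : ∀ i j k, i < 18 → j < 18 → k < 18 → i ≤ j → j ≤ k → Ws W i j k + R T i j k ≤ M := by
    intro i j k hi hj hk h1 h2
    have := h i (mem_cells hi)
    simp only [rows, List.all_eq_true] at this
    have := this j (mem_cells hj) k (mem_cells hk)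
    rw [Nat.ble_eq_true_of_le h1, Nat.ble_eq_true_of_le h2] at this
    simpa using this
  rcases le_total i j with a | a <;> rcases le_total j k with b | b <;>
    rcases le_total i k with d | d
  · exact s i j k hi hj hk a b
  · exact s i j k hi hj hk a b
  · rw [Ws_23, R_23]; exact s i k j hi hk hj d b
  · rw [Ws_23, R_23, Ws_12, R_12]; exact s k i j hk hi hj d a
  · rw [Ws_12, R_12]; exact s j i k hj hi hk a d
  · rw [Ws_12, R_12, Ws_23, R_23]; exact s j k i hj hk hi b d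
  · rw [Ws_12, R_12]; exact s j i k hj hi hk a d
  · rw [Ws_12, R_12, Ws_23, R_23, Ws_12, R_12]; exact s k j i hk hj hi b a

/-- Sum over ordered triples. -/
def S3 (I : Finset ℕ) (c : ℕ → ℕ) (g : ℕ → ℕ → ℕ → ℤ) : ℤ :=
  ∑ p ∈ I, ∑ q ∈ I, ∑ r ∈ I, g (c p) (c q) (c r)

/-- The form is nonnegative on the counts. -/
def Val (I : Finset ℕ) (c : ℕ → ℕ) (F : Fm) : Prop := 0 ≤ ∑ p ∈ I, ev F (c p)

/-- Every window is covered. -/
def Cov (I : Finset ℕ) (c : ℕ → ℕ) : Prop :=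
  ∀ u v : ℕ, u < v → v ≤ 40 → 9898 * ((v : ℤ) - u) * (I.card : ℤ) ^ 3 ≤
    400000 * S3 I c fun i j k => bif E u v i j k then 1 else 0

variable {I : Finset ℕ} {c : ℕ → ℕ}

theorem S3_add (g h : ℕ → ℕ → ℕ → ℤ) :
    S3 I c (fun i j k => g i j k + h i j k) = S3 I c g + S3 I c h := by
  simp only [S3, sum_add_distrib]

theorem val_of_ok {L : List Fm} (hL : ∀ F ∈ L, Val I c F) {F : Fm} (h : okF L F = true) :
    Val I c F := by
  simp only [okF, Bool.or_eq_true, Bool.and_eq_true, decide_eq_true_eq, List.any_eq_true] at h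
  rcases h with h | ⟨G, hG, rfl⟩
  · refine sum_nonneg fun p _ => ?_
    unfold ev
    cases (Nat.ble F.1 (c p) && Nat.ble (c p) F.2.1)
    · exact h.2
    · exact h.1
  · exact hL _ hG

theorem Q_nonneg {l : List (ℤ × Fm × Fm)}
    (h : ∀ s ∈ l, 0 ≤ s.1 ∧ Val I c s.2.1 ∧ Val I c s.2.2) :
    0 ≤ ∑ q ∈ I, ∑ r ∈ I, Q l (c q) (c r) := by
  induction l with
  | nil => simp [Q]
  | cons s l ih =>
    obtain ⟨h1, h2, h3⟩ := h s (by simp)
    have i := ih fun s hs => h s (by simp [hs])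
    have e : ∑ q ∈ I, ∑ r ∈ I, Q (s :: l) (c q) (c r) =
        s.1 * ((∑ p ∈ I, ev s.2.1 (c p)) * (∑ p ∈ I, ev s.2.2 (c p)) +
          (∑ p ∈ I, ev s.2.2 (c p)) * (∑ p ∈ I, ev s.2.1 (c p))) +
        ∑ q ∈ I, ∑ r ∈ I, Q l (c q) (c r) := by
      rw [sum_mul_sum, sum_mul_sum, ← sum_add_distrib, mul_sum, ← sum_add_distrib]
      refine sum_congr rfl fun q _ => ?_
      rw [← sum_add_distrib, mul_sum, ← sum_add_distrib]
      refine sum_congr rfl fun r _ => ?_
      simp only [Q]; ring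
    rw [e]
    unfold Val at h2 h3
    positivity

theorem R_nonneg {T : List (Fm × List (ℤ × Fm × Fm))}
    (h : ∀ g ∈ T, Val I c g.1 ∧ ∀ s ∈ g.2, 0 ≤ s.1 ∧ Val I c s.2.1 ∧ Val I c s.2.2) :
    0 ≤ S3 I c (R T) := by
  induction T with
  | nil => simp [S3, R]
  | cons g T ih =>
    obtain ⟨h1, h2⟩ := h g (by simp)
    have i := ih fun s hs => h s (by simp [hs])
    have q0 := Q_nonneg h2
    have m : 0 ≤ (∑ p ∈ I, ev g.1 (c p)) * ∑ q ∈ I, ∑ r ∈ I, Q g.2 (c q) (c r) :=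
      mul_nonneg h1 q0
    have e1 : S3 I c (fun i j k => ev g.1 i * Q g.2 j k) =
        (∑ p ∈ I, ev g.1 (c p)) * ∑ q ∈ I, ∑ r ∈ I, Q g.2 (c q) (c r) := by
      rw [sum_mul]
      simp only [S3, mul_sum]
    have e2 : S3 I c (fun i j k => ev g.1 j * Q g.2 i k) =
        S3 I c (fun i j k => ev g.1 i * Q g.2 j k) := by
      unfold S3; exact sum_comm
    have e3 : S3 I c (fun i j k => ev g.1 k * Q g.2 i j) =
        S3 I c (fun i j k => ev g.1 j * Q g.2 i k) := by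
      unfold S3; exact sum_congr rfl fun p _ => sum_comm
    have e : S3 I c (R (g :: T)) = S3 I c (fun i j k => ev g.1 i * Q g.2 j k) +
        S3 I c (fun i j k => ev g.1 j * Q g.2 i k) +
        S3 I c (fun i j k => ev g.1 k * Q g.2 i j) + S3 I c (R T) := by
      rw [← S3_add, ← S3_add, ← S3_add]
      simp only [S3, R, sh_eq]
    rw [e, e3, e2, e1]
    positivity

theorem Ws_ge (hc : Cov I c) {W : List (ℕ × ℕ × ℕ)} (h : ∀ w ∈ W, w.2.1 < w.2.2 ∧ w.2.2 ≤ 40) :
    9898 * Wl W * (I.card : ℤ) ^ 3 ≤ 400000 * S3 I c (Ws W) := by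
  induction W with
  | nil => simp [S3, Ws, Wl]
  | cons w W ih =>
    obtain ⟨h1, h2⟩ := h w (by simp)
    have i := ih fun s hs => h s (by simp [hs])
    have a := mul_le_mul_of_nonneg_left (hc _ _ h1 h2) (Int.natCast_nonneg w.1)
    have e : S3 I c (Ws (w :: W)) =
        w.1 * S3 I c (fun i j k => bif E w.2.1 w.2.2 i j k then 1 else 0) + S3 I c (Ws W) := by
      simp only [S3, mul_sum, ← sum_add_distrib, Ws]
      refine sum_congr rfl fun p _ => sum_congr rfl fun q _ => sum_congr rfl fun r _ => ?_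
      cases E w.2.1 w.2.2 (c p) (c q) (c r) <;> simp
    rw [e, Wl]
    linarith

theorem leaf (hc : ∀ p ∈ I, c p < 18) (hN : I.Nonempty) (cov : Cov I c) {L : List Fm}
    (hL : ∀ F ∈ L, Val I c F) {W : List (ℕ × ℕ × ℕ)} {T : List (Fm × List (ℤ × Fm × Fm))} {M : ℤ}
    (h1 : side L W T M = true) (h2 : ∀ i ∈ cells, rows W T M i = true) : False := by
  simp only [side, Bool.and_eq_true, List.all_eq_true, decide_eq_true_eq, Nat.blt_eq,
    Nat.ble_eq] at h1
  obtain ⟨⟨a1, a2⟩, a3⟩ := h1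
  have b1 := R_nonneg (I := I) (c := c) fun g hg => ⟨val_of_ok hL (a1 g hg).1, fun s hs =>
    ⟨((a1 g hg).2 s hs).1.1, val_of_ok hL ((a1 g hg).2 s hs).1.2,
      val_of_ok hL ((a1 g hg).2 s hs).2⟩⟩
  have b2 := Ws_ge cov a2
  have b3 : S3 I c (Ws W) + S3 I c (R T) ≤ M * (I.card : ℤ) ^ 3 := by
    rw [← S3_add]
    calc _ ≤ ∑ p ∈ I, ∑ q ∈ I, ∑ r ∈ I, M :=
          sum_le_sum fun p hp => sum_le_sum fun q hq => sum_le_sum fun r hr =>
            rows_all h2 (hc p hp) (hc q hq) (hc r hr)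
      _ = _ := by simp only [sum_const, nsmul_eq_mul]; ring
  have n0 : (0 : ℤ) < (I.card : ℤ) ^ 3 := by
    have := hN.card_pos
    positivity
  nlinarith [mul_lt_mul_of_pos_right a3 n0]

/-- The negative of a form. -/
def ng (F : Fm) : Fm := (F.1, F.2.1, -F.2.2.1, -F.2.2.2)

theorem val_or (F : Fm) : Val I c F ∨ Val I c (ng F) := by
  have : ∑ p ∈ I, ev (ng F) (c p) = -∑ p ∈ I, ev F (c p) := by
    rw [← sum_neg_distrib]
    refine sum_congr rfl fun p _ => ?_
    unfold ev ng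
    cases (Nat.ble F.1 (c p) && Nat.ble (c p) F.2.1) <;> rfl
  unfold Val
  omega

/-- A new valid form from a small certificate. -/
theorem probe (hc : ∀ p ∈ I, c p < 18) (hN : I.Nonempty) (cov : Cov I c) {L : List Fm}
    (hL : ∀ F ∈ L, Val I c F) (F : Fm) (W : List (ℕ × ℕ × ℕ))
    (T : List (Fm × List (ℤ × Fm × Fm))) (M : ℤ)
    (h : (side (ng F :: L) W T M && cells.all (rows W T M)) = true) : Val I c F := by
  rcases val_or (I := I) (c := c) F with a | a
  · exact a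
  · rw [Bool.and_eq_true, List.all_eq_true] at h
    exact (leaf hc hN cov (List.forall_mem_cons.2 ⟨a, hL⟩) h.1 h.2).elim

end Pool.Agent.P.MP_98c3cf_nt
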