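import Pool.Agent.P.MP_98c3cf_nt.Count
import Pool.Agent.P.MP_98c3cf_nt.Cert

/-! The growth constant of a greedy sequence. -/

namespace Pool.Agent.P.MP_98c3cf_nt

open Finset Filter

variable {a : ℕ → ℕ}

/-- The counting function is eventually at least `(κ y)^(1/3)`. -/
def Low (a : ℕ → ℕ) (κ : ℝ) : Prop := ∀ᶠ y : ℕ in atTop, κ * y ≤ ((idx a y).card : ℝ) ^ 3

theorem Low.mono {κ κ' : ℝ} (h : Low a κ) (hk : κ' ≤ κ) : Low a κ' :=
  Eventually.mono h fun y hy => (mul_le_mul_of_nonneg_right hk (Nat.cast_nonneg y)).trans hy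

theorem idx_ne (h : Greedy a) {y : ℕ} (hy : 1 ≤ y) : (idx a y).Nonempty :=
  ⟨0, (mem_idx h).2 (by rw [h.zero]; exact hy)⟩

theorem low_base (h : Greedy a) : Low a (1 / 5) := by
  filter_upwards [eventually_ge_atTop 40] with y hy
  obtain ⟨c, hc⟩ := exists_cell h (y / 40)
  have h1 := count h hc (u := 0) (v := 40) (by norm_num) le_rfl
  have h2 : S3 (idx a (40 * (y / 40))) c (fun i j k => bif E 0 40 i j k then 1 else 0) ≤
      ((idx a (40 * (y / 40))).card : ℤ) ^ 3 := by
    calc _ ≤ ∑ p ∈ idx a (40 * (y / 40)), ∑ q ∈ idx a (40 * (y / 40)),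
          ∑ r ∈ idx a (40 * (y / 40)), (1 : ℤ) :=
          sum_le_sum fun p _ => sum_le_sum fun q _ => sum_le_sum fun r _ => by
            dsimp only
            cases E 0 40 (c p) (c q) (c r) <;> simp
      _ = _ := by simp only [sum_const, nsmul_eq_mul]; ring
  have h3 : 1 ≤ (idx a (40 * (y / 40))).card := (idx_ne h (by omega)).card_pos
  have h4 : (idx a (40 * (y / 40))).card ≤ (idx a y).card :=
    card_le_card (idx_mono h (by omega))
  have h5 : y ≤ 80 * (y / 40) := by omega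
  generalize (idx a (40 * (y / 40))).card = N at *
  generalize y / 40 = Y at *
  have h6 : N ^ 3 ≤ (idx a y).card ^ 3 := Nat.pow_le_pow_left h4 3
  have h7 : y ≤ 5 * (idx a y).card ^ 3 := by
    have a1 : N ≤ N ^ 3 := Nat.le_self_pow (by norm_num) N
    have a2 : N ^ 2 ≤ N ^ 3 := Nat.pow_le_pow_right h3 (by norm_num)
    zify at h5 h6 a1 a2 ⊢
    push_cast at h1
    linarith
  have h8 : (y : ℝ) ≤ 5 * ((idx a y).card : ℝ) ^ 3 := by exact_mod_cast h7
  linarith

theorem L0_spec : ∀ F ∈ L0, F.1 = 0 ∧ F.2.1 < 18 ∧ F.2.2.1 = 1000 + F.2.2.2 ∧ F.2.2.2 ≤ 0 ∧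
    (-F.2.2.2) ^ 3 * 400080 ≤ 10 ^ 13 * (tt (F.2.1 + 1) : ℤ) ∧ 1 ≤ tt (F.2.1 + 1) ∧
    tt (F.2.1 + 1) ≤ 40 := by
  decide +kernel

theorem low_step (h : Greedy a) {κ : ℝ} (k0 : 0 < κ) (k1 : κ ≤ 200 / 33) (hl : Low a κ) :
    Low a (κ * 1.0001) := by
  by_contra hn
  obtain ⟨y0, hy0⟩ := eventually_atTop.1 hl
  obtain ⟨X, hX, hX'⟩ := frequently_atTop.1 (not_eventually.1 hn) (40 * max y0 (10 ^ 24))
  have hY : max y0 (10 ^ 24) ≤ X / 40 := by omega
  have hXY : X ≤ 40 * (X / 40) + 40 := by omega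
  have h4 : (idx a (40 * (X / 40))).card ≤ (idx a X).card :=
    card_le_card (idx_mono h (by omega))
  generalize X / 40 = Y at *
  obtain ⟨c, hc⟩ := exists_cell h Y
  have Y0 : y0 ≤ Y := (le_max_left _ _).trans hY
  have Y1 : 10 ^ 24 ≤ Y := (le_max_right _ _).trans hY
  have hN : ((idx a (40 * Y)).card : ℝ) ^ 3 ≤ κ * (40.008 * Y) := by
    have a1 : ((idx a (40 * Y)).card : ℝ) ^ 3 ≤ ((idx a X).card : ℝ) ^ 3 := by
      exact_mod_cast Nat.pow_le_pow_left h4 3
    have a2 : (X : ℝ) ≤ 40 * Y + 40 := by exact_mod_cast hXY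
    have a3 : 1.0001 * (X : ℝ) ≤ 40.008 * Y := by
      have : (10001 : ℝ) ≤ Y := by exact_mod_cast (show 10001 ≤ Y by omega)
      norm_num
      linarith
    have a4 := mul_le_mul_of_nonneg_left a3 k0.le
    rw [not_le] at hX'
    linarith
  refine no_cover (I := idx a (40 * Y)) (c := c) (fun p hp => (hc p hp).1)
    (idx_ne h (by omega)) ?_ ?_
  · intro u v huv hv
    have a1 := count h hc huv hv
    have a2 : 33000 * ((idx a (40 * Y)).card : ℤ) ^ 3 ≤ 8001600 * Y := by
      have : 33000 * ((idx a (40 * Y)).card : ℝ) ^ 3 ≤ 8001600 * Y := by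
        have := mul_le_mul_of_nonneg_right k1 (show (0 : ℝ) ≤ 40.008 * Y by positivity)
        norm_num at this hN ⊢
        linarith
      exact_mod_cast this
    have a3 : (1 : ℤ) ≤ (v : ℤ) - u := by omega
    have a4 : (10 : ℤ) ^ 24 ≤ Y := by exact_mod_cast Y1
    have a5 := Int.natCast_nonneg (idx a (40 * Y)).card
    generalize ((idx a (40 * Y)).card : ℤ) = N at *
    generalize (v : ℤ) - u = d at *
    have a6 : 600000 * (N + N ^ 2) ≤ Y := by
      rcases le_total N 300000000 with b | b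
      · nlinarith
      · nlinarith [mul_nonneg (sub_nonneg.2 b) (sq_nonneg N), mul_nonneg (sub_nonneg.2 b) a5]
    have a7 := mul_le_mul_of_nonneg_left a2 (show 0 ≤ d by omega)
    have a8 : (Y : ℤ) ≤ d * Y := by nlinarith
    nlinarith
  · intro F hF
    obtain ⟨b1, b2, b3, b4, b5, b6, b7⟩ := L0_spec F hF
    obtain ⟨z, b, p, q⟩ := F
    dsimp only at b1 b2 b3 b4 b5 b6 b7
    subst b1 b3
    have sub : idx a (tt (b + 1) * Y) ⊆ idx a (40 * Y) :=
      idx_mono h (Nat.mul_le_mul_right _ b7)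
    have e1 : 1000 * ((idx a (tt (b + 1) * Y)).card : ℤ) + q * (idx a (40 * Y)).card ≤
        ∑ p ∈ idx a (40 * Y), ev (0, b, 1000 + q, q) (c p) := by
      have : ∀ p ∈ idx a (40 * Y), (if p ∈ idx a (tt (b + 1) * Y) then 1000 else 0) + q ≤
          ev (0, b, 1000 + q, q) (c p) := by
        intro p hp
        unfold ev
        split_ifs with hh
        · rw [Nat.ble_eq_true_of_le (hc.le hp b2 ((mem_idx h).1 hh)),
            Nat.ble_eq_true_of_le (Nat.zero_le _)]
          exact le_rfl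
        · cases (Nat.ble 0 (c p) && Nat.ble (c p) b) <;> simp
      refine le_trans (le_of_eq ?_) (sum_le_sum this)
      rw [sum_add_distrib, sum_ite_mem, inter_eq_right.2 sub]
      simp only [sum_const, nsmul_eq_mul]
      ring
    refine le_trans ?_ e1
    have e2 := hy0 (tt (b + 1) * Y) (Y0.trans (Nat.le_mul_of_pos_left _ b6))
    have e3 : ((-q : ℤ) : ℝ) ^ 3 * 400080 ≤ 10 ^ 13 * (tt (b + 1) : ℝ) := by exact_mod_cast b5
    have e4 : (0 : ℝ) ≤ ((-q : ℤ) : ℝ) := by exact_mod_cast (show 0 ≤ -q by omega)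
    have e5 : ((-q : ℤ) : ℝ) * (idx a (40 * Y)).card ≤ 1000 * (idx a (tt (b + 1) * Y)).card := by
      refine le_of_pow_le_pow_left₀ (n := 3) (by norm_num) (by positivity) ?_
      rw [mul_pow, mul_pow]
      have f1 := mul_le_mul_of_nonneg_left hN (pow_nonneg e4 3)
      have f2 := mul_le_mul_of_nonneg_left e3 (show 0 ≤ κ * Y by positivity)
      push_cast at e2
      norm_num at f1 f2 ⊢
      nlinarith
    have e6 : (-q) * ((idx a (40 * Y)).card : ℤ) ≤ 1000 * (idx a (tt (b + 1) * Y)).card := by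
      exact_mod_cast e5
    linarith

theorem low_main (h : Greedy a) : Low a (200 / 33 * 1.0001) := by
  have key : ∀ j : ℕ, Low a (min (1 / 5 * 1.0001 ^ j) (200 / 33)) := by
    intro j
    induction j with
    | zero => exact (low_base h).mono (by simp)
    | succ j ih =>
      refine (low_step h (by positivity) (min_le_right _ _) ih).mono ?_
      rw [min_mul_of_nonneg _ _ (by norm_num), pow_succ, mul_assoc]
      exact min_le_min le_rfl (by norm_num)
  obtain ⟨j, hj⟩ := pow_unbounded_of_one_lt (1000 / 33 : ℝ) (show (1 : ℝ) < 1.0001 by norm_num)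
  exact low_step h (by norm_num) le_rfl ((key j).mono (le_min (by linarith) le_rfl))

theorem growth (h : Greedy a) : ∀ᶠ n : ℕ in atTop, (a n : ℝ) ≤ 0.165 * (n : ℝ) ^ 3 := by
  obtain ⟨y0, hy0⟩ := eventually_atTop.1 (low_main h)
  filter_upwards [eventually_ge_atTop (y0 + 100)] with n hn
  have h1 := h.mono.le_apply (x := n)
  have h2 := hy0 (a n - 1) (by omega)
  have h3 : idx a (a n - 1) = range n := by
    ext m
    rw [mem_idx h, mem_range, ← h.mono.lt_iff_lt]
    omega
  rw [h3, card_range, Nat.cast_sub (by omega)] at h2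
  have h4 : (100 : ℝ) ≤ n := by exact_mod_cast (show 100 ≤ n by omega)
  have h5 : (100 : ℝ) ^ 3 ≤ (n : ℝ) ^ 3 := pow_le_pow_left₀ (by norm_num) h4 3
  norm_num at h2 h5 ⊢
  linarith

theorem diffs (h : Greedy a)
    (hs : ∀ i j k l, a i + a j = a k + a l → (i = k ∧ j = l) ∨ (i = l ∧ j = k)) :
    ∀ᶠ N : ℕ in atTop, 1.66 * (N : ℝ) ^ (2 / 3 : ℝ) ≤
      (Nat.card {d : ℕ | d < N ∧ ∃ i j, a j + d = a i} : ℕ) := by
  filter_upwards [low_main h, eventually_ge_atTop (a 1000)] with N h1 h2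
  have c1 : 1000 ≤ (idx a N).card := by
    have : range 1000 ⊆ idx a N := fun m hm =>
      (mem_idx h).2 ((h.mono.monotone (mem_range.1 hm).le).trans h2)
    simpa using card_le_card this
  have fin : {d : ℕ | d < N ∧ ∃ i j, a j + d = a i}.Finite :=
    (Set.finite_Iio N).subset fun d hd => hd.1
  have c2 : (idx a N).card.choose 2 ≤ Nat.card {d : ℕ | d < N ∧ ∃ i j, a j + d = a i} := by
    rw [← card_product_filter_lt, Nat.card_coe_set_eq, Set.ncard_eq_toFinset_card _ fin]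
    refine card_le_card_of_injOn (fun z => a z.2 - a z.1) ?_ ?_
    · intro z hz
      simp only [coe_filter, mem_product, mem_idx h, Set.mem_ofPred_eq] at hz
      have := h.mono hz.2
      have := h.pos z.1
      simp only [Set.Finite.coe_toFinset, Set.mem_ofPred_eq]
      exact ⟨by omega, z.2, z.1, by omega⟩
    · intro z hz w hw e
      simp only [coe_filter, mem_product, mem_idx h, Set.mem_ofPred_eq] at hz hw e
      have := h.mono hz.2
      have := h.mono hw.2
      rcases hs z.2 w.1 w.2 z.1 (by omega) with r | r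
      · exact Prod.ext r.2.symm r.1
      · omega
  have c3 : (((idx a N).card.choose 2 : ℕ) : ℝ) ≤
      (Nat.card {d : ℕ | d < N ∧ ∃ i j, a j + d = a i} : ℕ) := by exact_mod_cast c2
  rw [Nat.cast_choose_two] at c3
  have c4 : (1000 : ℝ) ≤ (idx a N).card := by exact_mod_cast c1
  refine le_trans ?_ c3
  generalize ((idx a N).card : ℝ) = f at *
  have c5 : 0.4995 * f ^ 2 ≤ f * (f - 1) / 2 := by nlinarith
  refine le_trans ?_ c5
  refine le_of_pow_le_pow_left₀ (n := 3) (by norm_num) (by positivity) ?_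
  have n0 : (0 : ℝ) ≤ N := Nat.cast_nonneg N
  rw [mul_pow, mul_pow, ← Real.rpow_natCast ((N : ℝ) ^ (2 / 3 : ℝ)), ← Real.rpow_mul n0,
    show (2 / 3 : ℝ) * (3 : ℕ) = (2 : ℕ) by norm_num, Real.rpow_natCast]
  have c6 := pow_le_pow_left₀ (by positivity) h1 2
  have c7 : (f ^ 2) ^ 3 = (f ^ 3) ^ 2 := by ring
  rw [c7]
  rw [mul_pow] at c6
  have := sq_nonneg (N : ℝ)
  norm_num at c6 ⊢
  linarith

end Pool.Agent.P.MP_98c3cf_nt
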